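import Pool.Agent.Q281.DB.Core

/-!
# Semi-separated axioms for the division bimagmas of inverse semigroups

The four identities `(x/y)\z = y/(z\x)`, `(x/x)\x = x`, `(x\x)\(y\y) = (y\y)\(x\x)` and
`(x/x)/(y/y) = (y/y)/(x/x)`, of which only the first two involve both operations, characterize
inverse semigroups in terms of their division bimagmas.
-/

set_option autoImplicit false

namespace Pool.Agent.Results.MP_cc6d20_al.SemiSeparatedAxioms

universe u

/-- Terms in the operations `\` (`ld`) and `/` (`rd`). -/
inductive Term : Type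
  | var : ℕ → Term
  | ld : Term → Term → Term
  | rd : Term → Term → Term

/-- The value of a term in a bimagma. -/
def Term.eval {S : Type u} (ld rd : S → S → S) (v : ℕ → S) : Term → S
  | .var n => v n
  | .ld s t => ld (s.eval ld rd v) (t.eval ld rd v)
  | .rd s t => rd (s.eval ld rd v) (t.eval ld rd v)

/-- The operation `\` occurs in the term. -/
def Term.HasLd : Term → Prop
  | .var _ => False
  | .ld _ _ => True
  | .rd s t => s.HasLd ∨ t.HasLd

/-- The operation `/` occurs in the term. -/
def Term.HasRd : Term → Prop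
  | .var _ => False
  | .ld s t => s.HasRd ∨ t.HasRd
  | .rd _ _ => True

/-- An identity `s = t` is a pair of terms. -/
abbrev Identity : Type := Term × Term

/-- The identity holds in the bimagma `(S, \, /)`. -/
def Holds {S : Type u} (ld rd : S → S → S) (e : Identity) : Prop :=
  ∀ v : ℕ → S, e.1.eval ld rd v = e.2.eval ld rd v

/-- Both operations occur in the identity. -/
def InvolvesBoth (e : Identity) : Prop :=
  (e.1.HasLd ∨ e.2.HasLd) ∧ (e.1.HasRd ∨ e.2.HasRd)

/-- At most two of the identities involve both operations. -/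
def SemiSeparated (Γ : Set Identity) : Prop := {e ∈ Γ | InvolvesBoth e}.encard ≤ 2

/-- `(S, ·, ')` is an inverse semigroup: a semigroup in which `inv x` is the unique `y` with
`x y x = x` and `y x y = y`. -/
structure IsInverseSemigroup {S : Type u} (mul : S → S → S) (inv : S → S) : Prop where
  assoc : ∀ x y z, mul (mul x y) z = mul x (mul y z)
  mul_inv_mul : ∀ x, mul (mul x (inv x)) x = x
  inv_mul_inv : ∀ x, mul (mul (inv x) x) (inv x) = inv x
  unique : ∀ x y, mul (mul x y) x = x → mul (mul y x) y = y → y = inv x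

/-- `(S, \, /)` is the division bimagma `x \ y = x' y`, `x / y = x y'` of an inverse semigroup on
the set `S`. -/
def IsDivisionBimagma {S : Type u} (ld rd : S → S → S) : Prop :=
  ∃ (mul : S → S → S) (inv : S → S), IsInverseSemigroup mul inv ∧
    (∀ x y, ld x y = mul (inv x) y) ∧ (∀ x y, rd x y = mul x (inv y))

/-- The set of identities characterizes inverse semigroups in terms of their division bimagmas. -/
def Characterizes (Γ : Set Identity) : Prop :=
  ∀ (S : Type u) (ld rd : S → S → S), (∀ e ∈ Γ, Holds ld rd e) ↔ IsDivisionBimagma ld rd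

/-- There is a semi-separated set of identities which characterizes inverse semigroups in terms of
their division bimagmas. Such a set consists of the four identities `(x/y)\z = y/(z\x)`,
`(x/x)\x = x`, `(x\x)\(y\y) = (y\y)\(x\x)` and `(x/x)/(y/y) = (y/y)/(x/x)`. -/
theorem result :
    (∃ Γ : Set Identity, SemiSeparated Γ ∧ Characterizes.{u} Γ) ∧
    ∀ (S : Type u) (ld rd : S → S → S),
      ((∀ x y z, ld (rd x y) z = rd y (ld z x)) ∧
        (∀ x, ld (rd x x) x = x) ∧
        (∀ x y, ld (ld x x) (ld y y) = ld (ld y y) (ld x x)) ∧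
        (∀ x y, rd (rd x x) (rd y y) = rd (rd y y) (rd x x))) ↔ IsDivisionBimagma ld rd := by
  have main : ∀ (S : Type u) (ld rd : S → S → S),
      ((∀ x y z, ld (rd x y) z = rd y (ld z x)) ∧
        (∀ x, ld (rd x x) x = x) ∧
        (∀ x y, ld (ld x x) (ld y y) = ld (ld y y) (ld x x)) ∧
        (∀ x y, rd (rd x x) (rd y y) = rd (rd y y) (rd x x))) ↔ IsDivisionBimagma ld rd := by
    intro S ld rd
    have h := Pool.Agent.Q281.DB.four_iff ld rd
    constructor
    · rintro ⟨h1, h2, h3, h4⟩
      obtain ⟨mul, inv, hi, hl, hr⟩ := h.1 ⟨h1, h2, h3, h4⟩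
      exact ⟨mul, inv, ⟨hi.assoc, hi.mul_inv_mul, hi.inv_mul_inv, hi.unique⟩, hl, hr⟩
    · rintro ⟨mul, inv, hi, hl, hr⟩
      have h5 := h.2 ⟨mul, inv, ⟨hi.assoc, hi.mul_inv_mul, hi.inv_mul_inv, hi.unique⟩, hl, hr⟩
      exact ⟨h5.one, h5.two, h5.three, h5.four⟩
  refine ⟨?_, main⟩
  let x : Term := .var 0
  let y : Term := .var 1
  let z : Term := .var 2
  let e1 : Identity := (.ld (.rd x y) z, .rd y (.ld z x))
  let e2 : Identity := (.ld (.rd x x) x, x)
  let e3 : Identity := (.ld (.ld x x) (.ld y y), .ld (.ld y y) (.ld x x))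
  let e4 : Identity := (.rd (.rd x x) (.rd y y), .rd (.rd y y) (.rd x x))
  refine ⟨{e1, e2, e3, e4}, ?_, ?_⟩
  · refine le_trans (Set.encard_le_encard (?_ : _ ⊆ ({e1, e2} : Set Identity)))
      ((Set.encard_insert_le _ _).trans (by rw [Set.encard_singleton]; norm_num))
    rintro e ⟨he, hb⟩
    rcases he with rfl | rfl | rfl | rfl
    · exact Or.inl rfl
    · exact Or.inr rfl
    · exfalso
      have := hb.2
      simp [e3, x, y, Term.HasRd] at this
    · exfalso
      have := hb.1
      simp [e4, x, y, Term.HasLd] at this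
  · intro S ld rd
    rw [← main]
    constructor
    · intro h
      have h1 := h e1 (Or.inl rfl)
      have h2 := h e2 (Or.inr (Or.inl rfl))
      have h3 := h e3 (Or.inr (Or.inr (Or.inl rfl)))
      have h4 := h e4 (Or.inr (Or.inr (Or.inr rfl)))
      refine ⟨fun a b c => ?_, fun a => ?_, fun a b => ?_, fun a b => ?_⟩
      · exact h1 (fun n => if n = 0 then a else if n = 1 then b else c)
      · exact h2 (fun _ => a)
      · exact h3 (fun n => if n = 0 then a else b)
      · exact h4 (fun n => if n = 0 then a else b)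
    · rintro ⟨h1, h2, h3, h4⟩ e he v
      rcases he with rfl | rfl | rfl | rfl
      · exact h1 _ _ _
      · exact h2 _
      · exact h3 _ _
      · exact h4 _ _

end Pool.Agent.Results.MP_cc6d20_al.SemiSeparatedAxioms
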